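import Pool.Agent.Helper4.CD.St

/-!
# Project CD (MP_a41ee4_co), module TR: tracing a walk
-/

set_option autoImplicit false

namespace Pool.Agent.Helper9.CD

open Pool.Agent.Helper4.CD
open Module

/-- TR -/
theorem hTR : StTR := by
  intro K _ _ _ V _ _ κ _ _ c r n u v hw
  obtain ⟨z, hz0, hzn, hu, hstep⟩ := hw
  have hH : ∀ i : ℕ, ∃ (g : V) (k : κ), i < n → IsCircuit c g ∧ c k g < 0 ∧ c k (z (i + 1)) = r k ∧
      (∃ α : K, 0 ≤ α ∧ z (i + 1) = z i + α • g) ∧ z (i + 1) ∈ Poly c r := by
    intro i
    by_cases hi : i < n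
    · obtain ⟨g, α, hg, hα, hy, hyP, hmax⟩ := hstep i hi
      have hex : ∃ k, c k g < 0 ∧ c k (z (i + 1)) = r k := by
        by_contra hcon
        push Not at hcon
        obtain ⟨e, he⟩ : ∃ e : κ → K, ∀ k, e k = if c k g < 0 then (c k (z (i + 1)) - r k) / (-(c k g)) else 1 :=
          ⟨_, fun _ => rfl⟩
        have hpos : ∀ k, 0 < e k := by
          intro k
          rw [he]
          split_ifs with h
          · apply div_pos
            · have h1 : r k ≤ c k (z (i + 1)) := hyP k
              have h2 := hcon k h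
              exact sub_pos.2 (lt_of_le_of_ne h1 (Ne.symm h2))
            · exact neg_pos.2 h
          · exact zero_lt_one
        obtain ⟨k0, hk0⟩ := Finite.exists_min e
        apply hmax (α + e k0) (lt_add_of_pos_right α (hpos k0))
        intro k
        have h3 : z i + (α + e k0) • g = z (i + 1) + e k0 • g := by
          rw [hy, add_smul, add_assoc]
        rw [h3, map_add, map_smul, smul_eq_mul]
        have h4 : r k ≤ c k (z (i + 1)) := hyP k
        by_cases h : c k g < 0
        · have h5 := hk0 k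
          rw [he k, if_pos h, le_div_iff₀ (neg_pos.2 h)] at h5
          linarith
        · have h6 : 0 ≤ e k0 * c k g := mul_nonneg (hpos k0).le (not_lt.1 h)
          linarith
      obtain ⟨k, hk1, hk2⟩ := hex
      exact ⟨g, k, fun _ => ⟨hg, hk1, hk2, ⟨α, hα.le, hy⟩, hyP⟩⟩
    · exact ⟨0, Classical.arbitrary κ, fun h => absurd h hi⟩
  choose g h hgh using hH
  refine ⟨z, g, h, hz0, hzn, ?_, ?_, ?_, ?_, ?_⟩
  · intro i hi
    rcases Nat.eq_zero_or_pos i with h0 | h0
    · rw [h0, hz0]
      exact hu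
    · obtain ⟨j, rfl⟩ : ∃ j, i = j + 1 := ⟨i - 1, by omega⟩
      exact (hgh j (by omega)).2.2.2.2
  · intro i hi
    exact (hgh i hi).1
  · intro i hi
    exact (hgh i hi).2.1
  · intro i hi
    exact (hgh i hi).2.2.1
  · intro i hi
    exact (hgh i hi).2.2.2.1

end Pool.Agent.Helper9.CD
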